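import Pool.Agent.H29.DPT.Defs
import Pool.Agent.H3.DPC.BRG

/-!
# DPT: the traces in terms of families
-/

set_option autoImplicit false

namespace Pool.DPC

open Polynomial Complex

open BRG3 in
open Classical in
/-- BRGT. -/
theorem t_BRGT (h1 : TD1Stmt) (h2 : TD2Stmt) (h3 : TD3Stmt) (hV : VCRStmt) (hS : SUPStmt) :
    BRGTStmt := by
  intro S k n d Om P U L hn hW hU hL hT φ χ hφ hχ hq hit
  obtain ⟨C, hC⟩ : ∃ C, C = supF φ ∪ supF χ := ⟨_, rfl⟩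
  have hCc : (C : Set Nat.Primes) = sup φ ∪ sup χ := by
    rw [hC, Finset.coe_union, coe_supF hφ.fin, coe_supF hχ.fin]
  have hcl : ∀ ψ ∈ Subgroup.closure {φ, χ}, Tame n ψ ∧ sup ψ ⊆ C := fun ψ hψ => by
    rw [hCc]
    exact tame_closure hS hφ hχ hψ hn
  have hmap : (Subgroup.closure {φ, χ}).map (hom h1 C) =
      Subgroup.closure {toDC C φ, toDC C χ} := by
    rw [MonoidHom.map_closure, Set.image_pair]
    rfl
  have hF : FieldData n (cn C) (Subgroup.closure {toDC C φ, toDC C χ}) := by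
    refine ⟨(h3.2.2.2 C).1, fun psi hpsi => ?_, fun psi hpsi => ?_, fun l hl hlf => ?_⟩
    · rw [← hmap] at hpsi
      obtain ⟨ψ, hψ, rfl⟩ := hpsi
      obtain ⟨k1, k2⟩ := hcl ψ hψ
      exact (h1.2.2.2 C ψ k2).2 k1.even
    · rw [← hmap] at hpsi
      obtain ⟨ψ, hψ, rfl⟩ := hpsi
      rw [← map_pow, (hcl ψ hψ).1.exp, map_one]
    · have hlC : (⟨l, hl⟩ : Nat.Primes) ∈ C := ((h3.2.2.2 C).2 ⟨l, hl⟩).1 hlf
      have h5 : (⟨l, hl⟩ : Nat.Primes) ∈ sup φ ∪ sup χ := by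
        rw [← hCc]
        exact hlC
      rcases h5 with h5 | h5
      · refine ⟨toDC C φ, Subgroup.subset_closure (by simp), ?_⟩
        exact (h3.1 C φ ⟨l, hl⟩ (hcl φ (Subgroup.subset_closure (by simp))).2 hlC).2 h5
      · refine ⟨toDC C χ, Subgroup.subset_closure (by simp), ?_⟩
        exact (h3.1 C χ ⟨l, hl⟩ (hcl χ (Subgroup.subset_closure (by simp))).2 hlC).2 h5
  have h6 := hT (cn C) _ hF ⟨_, _, rfl, by
    obtain ⟨q, hq, hχq⟩ := hq
    refine ⟨q, hq, ?_⟩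
    have h8 : hom h1 C (χ ^ q) = 1 := by rw [hχq, map_one]
    rw [map_pow] at h8
    exact h8⟩ (by
    obtain ⟨l, hl, hlS⟩ := hit
    refine ⟨(l : ℕ), hlS, l.2, ((h3.2.2.2 C).2 l).2 ?_⟩
    rw [← hCc] at hl
    exact hl)
  rw [← hmap, Subgroup.coe_map] at h6
  have hinj : Set.InjOn (hom h1 C) (Subgroup.closure {φ, χ} : Set Ch) := fun x hx y hy hxy =>
    h2.1 C x y (hcl x hx).2 (hcl y hy).2 hxy
  rw [finsum_mem_image hinj] at h6
  have h7 : ∑ᶠ ψ ∈ (Subgroup.closure {φ, χ} : Set Ch),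
      wl (V0 d Om L) (Rf d P) (sup φ ∪ sup χ) ψ = ∑ᶠ ψ ∈ (Subgroup.closure {φ, χ} : Set Ch),
      normValue d Om (L (cn C)) (hom h1 C ψ) := by
    refine finsum_mem_congr rfl fun ψ hψ => ?_
    obtain ⟨k1, k2⟩ := hcl ψ hψ
    rw [← hCc, ← hV n d Om P U L hW hU hL C ψ k1 k2]
    rfl
  rw [h7]
  exact h6

end Pool.DPC
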