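import Pool.Agent.H29.DPT.Defs
import Pool.Agent.H29.DPC.MID

/-!
# DPT: the trivial character and the quadratic characters
-/

set_option autoImplicit false

namespace Pool.DPC

open Polynomial Complex

namespace BS

/-- the factors of the large primes are not zero -/
theorem R_ne {d : ℕ} {R : Nat.Primes → ℂ → ℂ} (hR : Lim d R) :
    ∃ B : ℕ, ∀ l : Nat.Primes, B < (l : ℕ) → ∀ t : ℂ, ‖t‖ = 1 → R l t ≠ 0 := by
  obtain ⟨B, hB⟩ := hR 1 one_pos
  refine ⟨B, fun l hl t ht h0 => ?_⟩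
  have h1 := hB l hl t ht
  rw [h0, zero_sub, norm_neg, norm_mul, norm_pow, norm_pow, norm_neg, norm_one, one_pow, one_mul,
    norm_inv, ht, inv_one, one_pow] at h1
  exact lt_irrefl _ h1

theorem pair_one (φ : Ch) : pair φ 1 = 1 := by
  unfold pair
  rw [← finprod_one (α := Nat.Primes) (M := ℂ)]
  refine finprod_congr fun l => ?_
  simp

theorem sup_one : sup (1 : Ch) = ∅ := by
  ext l
  simp [sup]

theorem ev_one (a : ℕ) : ev (1 : Ch) a = 1 := by
  unfold ev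
  rw [sup_one]
  simp

theorem wl_self (W : Ch → ℂ) (R : Nat.Primes → ℂ → ℂ) {C : Set Nat.Primes} {ψ : Ch}
    (h : sup ψ = C) : wl W R C ψ = W ψ := by
  rw [wl, h, Set.sdiff_self]
  simp

theorem wl_one (W : Ch → ℂ) (R : Nat.Primes → ℂ → ℂ) (C : Set Nat.Primes) :
    wl W R C 1 = W 1 * ∏ᶠ l ∈ C, R l 1 := by
  rw [wl, sup_one, Set.sdiff_empty]
  simp only [ev_one]

/-- two characters which are trivial at the primes of each other -/
theorem core (hS : SUPStmt) (hE : EVPStmt) {T : Set ℕ} {n : ℕ} {W : Ch → ℂ}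
    {R : Nat.Primes → ℂ → ℂ} (h1 : Eq1T T n W R) (h2 : Eq2T T n W R)
    {χ χ' : Ch} {q : ℕ} (hq : q.Prime) (hχ : Tame n χ) (hχ' : Tame n χ') (ho : orderOf χ = q)
    (ho' : orderOf χ' = q) (hd : Disjoint (sup χ) (sup χ')) (hT : Hit T (sup χ))
    (hT' : Hit T (sup χ')) (he : ∀ l ∈ sup χ', ev χ (l : ℕ) = 1)
    (he' : ∀ l ∈ sup χ, ev χ' (l : ℕ) = 1)
    (hR : ∀ l ∈ sup χ ∪ sup χ', R l 1 ≠ 0) : W 1 = 0 := by
  obtain ⟨-, hsd, hspow, hscop, -, htmul, htpow, -, hind⟩ := hS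
  obtain ⟨-, hev, -, -, -⟩ := hE
  have hχ1 : χ ^ q = 1 := by rw [← ho]; exact pow_orderOf_eq_one χ
  have hχ1' : χ' ^ q = 1 := by rw [← ho']; exact pow_orderOf_eq_one χ'
  have hco : ∀ i ∈ Finset.Ico 1 q, i.Coprime q := by
    intro i hi
    rw [Finset.mem_Ico] at hi
    exact Nat.coprime_comm.1 ((Nat.Prime.coprime_iff_not_dvd hq).2 fun h =>
      absurd (Nat.le_of_dvd (by omega) h) (by omega))
  set C := sup χ ∪ sup χ' with hC
  set A := ∏ᶠ l ∈ sup χ, R l 1 with hA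
  set A' := ∏ᶠ l ∈ sup χ', R l 1 with hA'
  have hAA : ∏ᶠ l ∈ C, R l 1 = A * A' := finprod_mem_union hd hχ.fin hχ'.fin
  have hA0 : A * A' ≠ 0 := by
    have hnz : ∀ D : Set Nat.Primes, D ⊆ C → D.Finite → ∏ᶠ l ∈ D, R l 1 ≠ 0 := by
      intro D hD hf
      rw [finprod_mem_eq_finite_toFinset_prod _ hf]
      exact Finset.prod_ne_zero_iff.2 fun l hl => hR l (hD (hf.mem_toFinset.1 hl))
    exact mul_ne_zero (hnz _ Set.subset_union_left hχ.fin)
      (hnz _ Set.subset_union_right hχ'.fin)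
  have hsplit : ∀ f : ℕ → ℂ, ∑ i ∈ Finset.range q, f i = f 0 + ∑ i ∈ Finset.Ico 1 q, f i := by
    intro f
    rw [Finset.range_eq_Ico, Finset.sum_eq_sum_Ico_succ_bot hq.pos]
  have e1 := h1 χ hχ hT
  rw [ho, hsplit, pow_zero, wl_one] at e1
  have e1' : ∑ i ∈ Finset.Ico 1 q, W (χ ^ i) = -(W 1 * A) := by
    rw [eq_neg_iff_add_eq_zero, add_comm, ← e1]
    congr 1
    refine Finset.sum_congr rfl fun i hi => ?_
    rw [wl_self W R (hscop χ i (by rw [ho]; exact hco i hi))]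
  have e2 := h1 χ' hχ' hT'
  rw [ho', hsplit, pow_zero, wl_one] at e2
  have e2' : ∑ i ∈ Finset.Ico 1 q, W (χ' ^ i) = -(W 1 * A') := by
    rw [eq_neg_iff_add_eq_zero, add_comm, ← e2]
    congr 1
    refine Finset.sum_congr rfl fun i hi => ?_
    rw [wl_self W R (hscop χ' i (by rw [ho']; exact hco i hi))]
  have hsupm : ∀ i b : ℕ, i.Coprime q → b.Coprime q → sup (χ ^ i * χ' ^ b) = C := by
    intro i b hi hb
    have h3 : sup (χ ^ i) = sup χ := hscop χ i (by rw [ho]; exact hi)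
    have h4 : sup (χ' ^ b) = sup χ' := hscop χ' b (by rw [ho']; exact hb)
    rw [hsd _ _ (by rw [h3, h4]; exact hd), h3, h4]
  have : Fact q.Prime := ⟨hq⟩
  have e3 : ∀ b ∈ Finset.Ico 1 q,
      ∑ i ∈ Finset.Ico 1 q, W (χ ^ i * χ' ^ (b * i % q)) = -(W 1 * (A * A')) := by
    intro b hb
    have hs : sup (χ * χ' ^ b) = C := by
      have := hsupm 1 b (Nat.coprime_one_left q) (hco b hb)
      rwa [pow_one] at this
    have hor : orderOf (χ * χ' ^ b) = q := by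
      refine orderOf_eq_prime ?_ fun h => ?_
      · rw [mul_pow, hχ1, one_mul, ← pow_mul, mul_comm, pow_mul, hχ1', one_pow]
      · rw [h, sup_one] at hs
        obtain ⟨l, hl, -⟩ := hT
        have : l ∈ C := Or.inl hl
        rw [← hs] at this
        exact this
    have e := h1 (χ * χ' ^ b) (htmul n _ _ hχ (htpow n b χ' hχ')) (by
      rw [hs]
      obtain ⟨l, hl, hlT⟩ := hT
      exact ⟨l, Or.inl hl, hlT⟩)
    rw [hor, hsplit, pow_zero, wl_one, hs, hAA] at e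
    rw [eq_neg_iff_add_eq_zero, add_comm, ← e]
    congr 1
    refine Finset.sum_congr rfl fun i hi => ?_
    have h5 : (χ * χ' ^ b) ^ i = χ ^ i * χ' ^ (b * i % q) := by
      rw [mul_pow, ← pow_mul]
      congr 1
      rw [← ho', pow_mod_orderOf]
    rw [h5, wl_self W R]
    refine hsupm i _ (hco i hi) ?_
    have h6 : (b * i).Coprime q := Nat.Coprime.mul_left (hco b hb) (hco i hi)
    unfold Nat.Coprime at h6 ⊢
    rw [← Nat.gcd_rec q (b * i), Nat.gcd_comm]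
    exact h6
  have e4 := h2 χ χ' hχ hχ' ⟨q, hq, hχ1'⟩ hd (by
    obtain ⟨l, hl, hlT⟩ := hT
    exact ⟨l, Or.inl hl, hlT⟩)
  rw [ho, ho', hsplit, hsplit] at e4
  have t0 : ∀ i ∈ Finset.Ico 1 q, ∑ b ∈ Finset.range q, wl W R C (χ ^ i * χ' ^ b) =
      W (χ ^ i) * A' + ∑ b ∈ Finset.Ico 1 q, W (χ ^ i * χ' ^ b) := by
    intro i hi
    rw [hsplit]
    congr 1
    · rw [pow_zero, mul_one, wl, hscop χ i (by rw [ho]; exact hco i hi)]
      have h6 : C \ sup χ = sup χ' := by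
        rw [hC, Set.union_sdiff_left, sdiff_eq_left]
        exact hd.symm
      rw [h6]
      congr 1
      refine finprod_mem_congr rfl fun l hl => ?_
      rw [hev χ l i hχ.fin (Set.disjoint_right.1 hd hl), he l hl, one_pow]
    · refine Finset.sum_congr rfl fun b hb => ?_
      rw [wl_self W R (hsupm i b (hco i hi) (hco b hb))]
  have t1 : ∑ b ∈ Finset.Ico 1 q, wl W R C (χ ^ 0 * χ' ^ b) =
      (∑ b ∈ Finset.Ico 1 q, W (χ' ^ b)) * A := by
    rw [Finset.sum_mul]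
    refine Finset.sum_congr rfl fun b hb => ?_
    rw [pow_zero, one_mul, wl, hscop χ' b (by rw [ho']; exact hco b hb)]
    have h6 : C \ sup χ' = sup χ := by
      rw [hC, Set.union_sdiff_right, sdiff_eq_left]
      exact hd
    rw [h6]
    congr 1
    refine finprod_mem_congr rfl fun l hl => ?_
    rw [hev χ' l b hχ'.fin (Set.disjoint_left.1 hd hl), he' l hl, one_pow]
  rw [t1, pow_zero, pow_zero, one_mul, wl_one, hAA, Finset.sum_congr rfl t0,
    Finset.sum_add_distrib, ← Finset.sum_mul, e1', e2'] at e4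
  have t2 : ∑ i ∈ Finset.Ico 1 q, ∑ b ∈ Finset.Ico 1 q, W (χ ^ i * χ' ^ b) =
      ((q : ℂ) - 1) * -(W 1 * (A * A')) := by
    have h3 : ∀ i ∈ Finset.Ico 1 q, ∑ b ∈ Finset.Ico 1 q, W (χ ^ i * χ' ^ b) =
        ∑ b ∈ Finset.Ico 1 q, W (χ ^ i * χ' ^ (b * i % q)) := by
      intro i hi
      exact (MID.sum_perm hq (hco i hi) fun b => W (χ ^ i * χ' ^ b)).symm
    rw [Finset.sum_congr rfl h3, Finset.sum_comm, Finset.sum_congr rfl e3, Finset.sum_const,
      Nat.card_Ico, nsmul_eq_mul, Nat.cast_sub hq.one_le, Nat.cast_one]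
  rw [t2] at e4
  have e5 : (q : ℂ) * (W 1 * (A * A')) = 0 := by
    linear_combination -e4
  rcases mul_eq_zero.1 e5 with h | h
  · exact absurd (Nat.cast_eq_zero.1 h) hq.ne_zero
  · rcases mul_eq_zero.1 h with h | h
    · exact h
    · exact absurd h hA0

end BS

open BS in
/-- BS1 -/
theorem t_BS1 (hS : SUPStmt) (hE : EVPStmt) (hD : DIRTStmt) (hA : AUXStmt) : BS1Stmt := by
  intro T n d W R hT hn hR h1 h2
  have hS' := hS
  obtain ⟨-, hsd, hspow, hscop, -, htmul, htpow, -, hind⟩ := hS'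
  have hE' := hE
  obtain ⟨-, hevp, hevn, -, -⟩ := hE'
  obtain ⟨q0, hq, hqn⟩ := Nat.exists_prime_and_dvd (show n ≠ 1 by omega)
  set q : Nat.Primes := ⟨q0, hq⟩ with hqdef
  have hqp : (q : ℕ).Prime := hq
  obtain ⟨B, hB⟩ := R_ne hR
  obtain ⟨p₁, a1, b1, c1, -, -⟩ := hD T hT ∅ Set.finite_empty 1 q rfl B
  obtain ⟨p₂, a2, b2, c2, d2, e2⟩ := hD T hT {p₁} (Set.finite_singleton _) 1 q rfl B
  obtain ⟨p₃, a3, b3, c3, d3, e3⟩ := hD T hT {p₁, p₂} (Set.toFinite _) 1 q rfl B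
  obtain ⟨χ₁, t1, s1, o1⟩ := hA n q hqp hqn p₁ c1
  obtain ⟨χ₂, t2, s2, o2⟩ := hA n q hqp hqn p₂ c2
  obtain ⟨χ₃, t3, s3, o3⟩ := hA n q hqp hqn p₃ c3
  have h12 : p₁ ≠ p₂ := fun h => d2 (by rw [← h]; rfl)
  have h13 : p₁ ≠ p₃ := fun h => d3 (by rw [← h]; exact Or.inl rfl)
  have h23 : p₂ ≠ p₃ := fun h => d3 (by rw [← h]; exact Or.inr rfl)
  have hR1 : ∀ l : Nat.Primes, B < (l : ℕ) → R l 1 ≠ 0 := fun l hl => hB l hl 1 norm_one
  have v2 : ev χ₁ (p₂ : ℕ) = 1 := by rw [e2 χ₁ s1.le, pair_one]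
  have v3 : ev χ₁ (p₃ : ℕ) = 1 := by
    rw [e3 χ₁ (s1.le.trans (by intro l hl; exact Or.inl hl)), pair_one]
  have hχ2 : χ₂ ^ (q : ℕ) = 1 := by rw [← o2]; exact pow_orderOf_eq_one _
  have hχ3 : χ₃ ^ (q : ℕ) = 1 := by rw [← o3]; exact pow_orderOf_eq_one _
  have n2 : p₁ ∉ sup χ₂ := by rw [s2]; exact h12
  have n3 : p₁ ∉ sup χ₃ := by rw [s3]; exact h13
  by_cases k2 : ev χ₂ (p₁ : ℕ) = 1
  · refine core hS hE h1 h2 hqp t1 t2 o1 o2 ?_ ?_ ?_ ?_ ?_ ?_
    · rw [s1, s2]; exact Set.disjoint_singleton.2 h12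
    · exact ⟨p₁, by rw [s1]; rfl, a1⟩
    · exact ⟨p₂, by rw [s2]; rfl, a2⟩
    · intro l hl
      rw [s2] at hl
      rw [hl, v2]
    · intro l hl
      rw [s1] at hl
      rw [hl, k2]
    · rintro l (hl | hl)
      · rw [s1] at hl
        rw [hl]; exact hR1 _ b1
      · rw [s2] at hl
        rw [hl]; exact hR1 _ b2
  · -- combine two characters
    have w2 : ev χ₂ (p₁ : ℕ) ^ (q : ℕ) = 1 := (hevn χ₂ p₁ q t2.fin n2 hχ2).1
    have w3 : ev χ₃ (p₁ : ℕ) ^ (q : ℕ) = 1 := (hevn χ₃ p₁ q t3.fin n3 hχ3).1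
    have : Fact (q : ℕ).Prime := ⟨hqp⟩
    have : NeZero (q : ℕ) := ⟨hqp.ne_zero⟩
    have hprim : IsPrimitiveRoot (ev χ₂ (p₁ : ℕ)) (q : ℕ) := by
      have h3 : orderOf (ev χ₂ (p₁ : ℕ)) = (q : ℕ) := orderOf_eq_prime w2 k2
      rw [← h3]
      exact IsPrimitiveRoot.orderOf _
    have x3 : ev χ₃ (p₁ : ℕ) ≠ 0 := fun h => by
      rw [h, zero_pow hqp.ne_zero] at w3
      exact zero_ne_one w3
    obtain ⟨c, hc, hc'⟩ := hprim.eq_pow_of_pow_eq_one (ξ := (ev χ₃ (p₁ : ℕ))⁻¹) (by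
      rw [inv_pow, w3, inv_one])
    -- the character `χ₃ * χ₂ ^ c`
    set χ' := χ₃ * χ₂ ^ c with hχ'
    have hdj : Disjoint (sup χ₃) (sup (χ₂ ^ c)) :=
      Disjoint.mono_right (hspow χ₂ c) (by rw [s3, s2]; exact Set.disjoint_singleton.2 h23.symm)
    have hsχ' : sup χ' = sup χ₃ ∪ sup (χ₂ ^ c) := hsd _ _ hdj
    have hsub : sup χ' ⊆ {p₂, p₃} := by
      rw [hsχ', s3]
      refine Set.union_subset ?_ ((hspow χ₂ c).trans (by rw [s2]; intro l hl; exact Or.inl hl))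
      intro l hl
      exact Or.inr hl
    have hp3 : p₃ ∈ sup χ' := by
      rw [hsχ', s3]
      exact Or.inl rfl
    have htχ' : Tame n χ' := htmul n _ _ t3 (htpow n c χ₂ t2)
    have hoχ' : orderOf χ' = (q : ℕ) := by
      refine orderOf_eq_prime ?_ fun h => ?_
      · rw [hχ', mul_pow, hχ3, one_mul, ← pow_mul, mul_comm, pow_mul, hχ2, one_pow]
      · rw [h, sup_one] at hp3
        exact hp3
    have hev' : ev χ' (p₁ : ℕ) = 1 := by
      have h3 : ev χ' (p₁ : ℕ) = ev χ₃ (p₁ : ℕ) * ev (χ₂ ^ c) (p₁ : ℕ) := by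
        have hE1 := hE.1
        have hd1 : ∀ l ∈ ({p₂, p₃} : Finset Nat.Primes), ¬ (l : ℕ) ∣ (p₁ : ℕ) := by
          intro l hl h
          have h5 : (l : ℕ) = (p₁ : ℕ) := (Nat.prime_dvd_prime_iff_eq l.2 p₁.2).1 h
          have h6 : l = p₁ := Subtype.ext h5
          rw [Finset.mem_insert, Finset.mem_singleton] at hl
          rcases hl with h7 | h7
          · exact h12 (by rw [← h6, h7])
          · exact h13 (by rw [← h6, h7])
        rw [hE1 χ' {p₂, p₃} _ (by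
            intro l hl
            have := hsub hl
            simpa using this) hd1,
          hE1 χ₃ {p₂, p₃} _ (by
            rw [s3]
            intro l hl
            rw [Set.mem_singleton_iff] at hl
            simp [hl]) hd1,
          hE1 (χ₂ ^ c) {p₂, p₃} _ (by
            refine (hspow χ₂ c).trans ?_
            rw [s2]
            intro l hl
            rw [Set.mem_singleton_iff] at hl
            simp [hl]) hd1, ← Finset.prod_mul_distrib]
        refine Finset.prod_congr rfl fun l _ => ?_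
        rw [hχ', Pi.mul_apply, MulChar.mul_apply]
      rw [h3, hevp χ₂ p₁ c t2.fin n2, hc', mul_inv_cancel₀ x3]
    refine core hS hE h1 h2 hqp t1 htχ' o1 hoχ' ?_ ?_ ?_ ?_ ?_ ?_
    · rw [s1]
      refine Set.disjoint_singleton_left.2 fun h => ?_
      rcases hsub h with h | h
      · exact h12 h
      · exact h13 h
    · exact ⟨p₁, by rw [s1]; rfl, a1⟩
    · exact ⟨p₃, hp3, a3⟩
    · intro l hl
      rcases hsub hl with h | h
      · rw [h, v2]
      · rw [Set.mem_singleton_iff.1 h, v3]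
    · intro l hl
      rw [s1] at hl
      rw [hl, hev']
    · rintro l (hl | hl)
      · rw [s1] at hl
        rw [hl]; exact hR1 _ b1
      · rcases hsub hl with h | h
        · rw [h]; exact hR1 _ b2
        · rw [Set.mem_singleton_iff.1 h]; exact hR1 _ b3

open BS in
/-- BS2 -/
theorem t_BS2 (hS : SUPStmt) (hE : EVPStmt) (hD : DIRTStmt) (hA : AUXStmt) : BS2Stmt := by
  intro T n d W R hT hn hR h1 h2 hW1 φ hφ ho
  obtain ⟨-, hsd, hspow, hscop, -, htmul, htpow, hord, hind⟩ := hS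
  obtain ⟨B, hB⟩ := R_ne hR
  have h2n : 2 ∣ n := by
    have := (hord n φ (by omega) hφ).2
    rwa [ho] at this
  set q : Nat.Primes := ⟨2, Nat.prime_two⟩ with hq
  have hq2 : (q : ℕ) = 2 := rfl
  obtain ⟨p, hpT, hpB, hp8, hpφ, hpe⟩ := hD T hT (sup φ) hφ.fin 1 q rfl B
  obtain ⟨χ, tχ, sχ, oχ⟩ := hA n 2 Nat.prime_two h2n p hp8
  have hφ2 : φ ^ 2 = 1 := by rw [← ho]; exact pow_orderOf_eq_one _
  have hχ2 : χ ^ 2 = 1 := by rw [← oχ]; exact pow_orderOf_eq_one _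
  have hd : Disjoint (sup φ) (sup χ) := by
    rw [sχ, Set.disjoint_singleton_right]
    exact hpφ
  have hz1 : ∀ C : Set Nat.Primes, wl W R C 1 = 0 := fun C => by rw [wl, hW1, zero_mul]
  have hit : Hit T (sup χ) := ⟨p, by rw [sχ]; rfl, hpT⟩
  have e1 := h1 χ tχ hit
  rw [oχ, Finset.sum_range_succ, Finset.sum_range_one, pow_zero, pow_one, hz1, zero_add,
    wl_self W R rfl] at e1
  have hs : sup (φ * χ) = sup φ ∪ sup χ := hsd _ _ hd
  have hit2 : Hit T (sup φ ∪ sup χ) := by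
    obtain ⟨l, hl, hlT⟩ := hit
    exact ⟨l, Or.inr hl, hlT⟩
  have : Fact (Nat.Prime 2) := ⟨Nat.prime_two⟩
  have ho2 : orderOf (φ * χ) = 2 := by
    refine orderOf_eq_prime (by rw [mul_pow, hφ2, hχ2, one_mul]) fun h => ?_
    have h3 : p ∈ sup (φ * χ) := by
      rw [hs, sχ]
      exact Or.inr rfl
    rw [h, sup_one] at h3
    exact h3
  have e2 := h1 (φ * χ) (htmul n _ _ hφ tχ) (by rw [hs]; exact hit2)
  rw [ho2, Finset.sum_range_succ, Finset.sum_range_one, pow_zero, pow_one, hz1, zero_add,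
    wl_self W R rfl] at e2
  have e3 := h2 φ χ hφ tχ ⟨2, Nat.prime_two, hχ2⟩ hd hit2
  rw [ho, oχ, Finset.sum_range_succ, Finset.sum_range_one, Finset.sum_range_succ,
    Finset.sum_range_one, Finset.sum_range_succ, Finset.sum_range_one, pow_zero, pow_one, pow_zero,
    pow_one, mul_one, mul_one, one_mul, hz1, zero_add] at e3
  have z1 : wl W R (sup φ ∪ sup χ) χ = 0 := by rw [wl, e1, zero_mul]
  have z2 : wl W R (sup φ ∪ sup χ) (φ * χ) = 0 := by rw [wl, e2, zero_mul]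
  rw [z1, z2, add_zero, zero_add, wl] at e3
  have h6 : (sup φ ∪ sup χ) \ sup φ = {p} := by
    rw [Set.union_sdiff_left, sχ, sdiff_eq_left, Set.disjoint_singleton_left]
    exact hpφ
  rw [h6, finprod_mem_singleton] at e3
  rcases mul_eq_zero.1 e3 with h | h
  · exact h
  · exfalso
    refine hB p hpB _ ?_ h
    rw [hpe φ le_rfl, pair_one, norm_one]

end Pool.DPC
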