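import Pool.Agent.H29.DPT.Defs

/-!
# DPT: COR, the linear system has only the zero solution
-/

set_option autoImplicit false

namespace Pool.DPC

open Polynomial Complex

theorem t_CORT (hI : IDXTStmt) (hQ : QSMStmt) (hA : STATStmt) (hB : STBTStmt) (hC : STCTStmt)
    (h1s : BS1Stmt) (h2s : BS2Stmt) (hS : SUPStmt) : CORTStmt := by
  obtain ⟨-, -, -, -, ht1, -, -, htord, -⟩ := hS
  intro T n d W R hT hn1 hnd hR hY
  have hn : 0 < n := by omega
  obtain ⟨h1, h2⟩ := hI T n W R hn hY
  have hW1 : W 1 = 0 := h1s T n d W R hT hn1 hR h1 h2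
  have key : ∀ m : ℕ, ∀ φ : Ch, Tame n φ → orderOf φ = m → W φ = 0 := by
    intro m
    induction m using Nat.strong_induction_on with
    | _ m ih =>
      intro φ hφ hm
      have hIH : IH n W (orderOf φ) := fun ψ hψ hlt => ih (orderOf ψ) (hm ▸ hlt) ψ hψ rfl
      have hm0 : 0 < orderOf φ := (htord n φ hn hφ).1
      rcases lt_or_ge 2 (orderOf φ) with h | h
      · obtain ⟨q, hq, hq1, hq2⟩ := hQ φ hφ.fin h
        by_cases hqq : (q : ℕ) ^ 2 ∣ orderOf φ
        · exact hC T n d W R hT hn hnd hR h1 h2 φ q hφ hqq hq1 hIH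
        · have hqn2 : (q : ℕ) ≠ 2 := hq2.resolve_left hqq
          refine hB T n d W R hT hn hnd hR h1 h2 φ q hφ hqn2 hq hqq hq1 hIH
            fun ψ hψ hord hψ1 hTw => ?_
          exact hA T n d W R hT hn hnd hR h1 h2 ψ q hψ hqn2 (by rw [hord]; exact hq)
            (by rw [hord]; exact hqq) hψ1 (by rw [hord]; exact hIH) hTw
      · have hcase : orderOf φ = 1 ∨ orderOf φ = 2 := by omega
        rcases hcase with h3 | h3
        · have h5 : φ = 1 := orderOf_eq_one_iff.1 h3
          rw [h5]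
          exact hW1
        · exact h2s T n d W R hT hn1 hR h1 h2 hW1 φ hφ h3
  intro φ hφ
  exact key _ φ hφ rfl

end Pool.DPC
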