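import Pool.Agent.H29.DPT.Defs
import Pool.Agent.H79.DPC.IDX

/-!
# DPT: from subgroups to indices
-/

set_option autoImplicit false

namespace Pool.DPC

open Polynomial Complex

open H79IDX in
/-- IDXT -/
theorem t_IDXT (hS : SUPStmt) : IDXTStmt := by
  classical
  intro S n W R hn hY
  obtain ⟨-, -, -, -, hT1, -, -, hord, hinj⟩ := hS
  constructor
  · intro φ hφ hit
    have hφ0 := (hord n φ hn hφ).1
    have hsup1 : sup (1 : Ch) = ∅ := by
      ext l
      simp [sup]
    have h := hY φ 1 hφ (hT1 n) ⟨2, Nat.prime_two, one_pow 2⟩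
      (by rw [hsup1, Set.union_empty]; exact hit)
    rw [hsup1, Set.union_empty] at h
    have hset : ((Subgroup.closure {φ, (1 : Ch)} : Subgroup Ch) : Set Ch) =
        (((Finset.range (orderOf φ)).image (fun i => φ ^ i) : Finset Ch) : Set Ch) := by
      ext z
      simp only [SetLike.mem_coe, Finset.coe_image, Finset.coe_range, Set.mem_image, Set.mem_Iio]
      rw [Subgroup.mem_closure_pair]
      constructor
      · rintro ⟨a, b, rfl⟩
        obtain ⟨i, hi, hi'⟩ := exists_nat_pow φ hφ0 a
        exact ⟨i, hi, by rw [hi', one_zpow, mul_one]⟩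
      · rintro ⟨i, hi, rfl⟩
        exact ⟨i, 0, by simp⟩
    rw [hset, finsum_mem_coe_finset, Finset.sum_image] at h
    · exact h
    · intro i hi j hj hij
      simp only [Finset.coe_range, Set.mem_Iio] at hi hj
      exact pow_injOn_Iio_orderOf (by simpa using hi) (by simpa using hj) hij
  · intro φ χ hφ hχ hq hd hit
    have hφ0 := (hord n φ hn hφ).1
    have hχ0 := (hord n χ hn hχ).1
    have h := hY φ χ hφ hχ hq hit
    have hset : ((Subgroup.closure {φ, χ} : Subgroup Ch) : Set Ch) =
        ((((Finset.range (orderOf φ)) ×ˢ (Finset.range (orderOf χ))).image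
          (fun p : ℕ × ℕ => φ ^ p.1 * χ ^ p.2) : Finset Ch) : Set Ch) := by
      ext z
      simp only [SetLike.mem_coe, Finset.coe_image, Finset.coe_product, Finset.coe_range,
        Set.mem_image, Set.mem_prod, Set.mem_Iio, Prod.exists]
      rw [Subgroup.mem_closure_pair]
      constructor
      · rintro ⟨a, b, rfl⟩
        obtain ⟨i, hi, hi'⟩ := exists_nat_pow φ hφ0 a
        obtain ⟨j, hj, hj'⟩ := exists_nat_pow χ hχ0 b
        exact ⟨i, j, ⟨hi, hj⟩, by rw [hi', hj']⟩
      · rintro ⟨i, j, ⟨hi, hj⟩, rfl⟩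
        exact ⟨i, j, by simp⟩
    rw [hset, finsum_mem_coe_finset, Finset.sum_image] at h
    · rw [Finset.sum_product] at h
      exact h
    · rintro ⟨i, b⟩ hi ⟨i', b'⟩ hj hij
      simp only [Finset.coe_product, Finset.coe_range, Set.mem_prod, Set.mem_Iio] at hi hj
      obtain ⟨h1, h2⟩ := hinj φ χ hd i b i' b' hij
      have e1 := pow_injOn_Iio_orderOf (by simpa using hi.1) (by simpa using hj.1) h1
      have e2 := pow_injOn_Iio_orderOf (by simpa using hi.2) (by simpa using hj.2) h2
      rw [e1, e2]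

end Pool.DPC
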