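import Pool.Agent.H29.DPT.Defs

/-!
# DPT: MAIN, the assembly
-/

set_option autoImplicit false

namespace Pool.DPC

open Polynomial Complex

theorem t_MAINT (hLIM : LIMStmt) (hTD1 : TD1Stmt) (hTD2 : TD2Stmt) (hTD3 : TD3Stmt)
    (hVCR : VCRStmt) (hBRG : BRGTStmt) (hSEM : SEMTStmt) (hLVL : LVLStmt) (hFLD : FLDStmt)
    (hBAK : BAKStmt) (hSUP : SUPStmt) : MainTStmt := by
  obtain ⟨hmul, hone, -, heven⟩ := hTD1
  obtain ⟨hinj, hsurj⟩ := hTD2
  obtain ⟨-, -, hsq, -⟩ := hTD3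
  obtain ⟨-, -, hspow, -, -, -, htpow, -, -⟩ := hSUP
  intro S hRich n d hn1 hnd Om P U L hW hU hHL k
  have hn : 0 < n := by omega
  have hpow : ∀ (C : Finset Nat.Primes) (φ : Ch) (i : ℕ), toDC C (φ ^ i) = toDC C φ ^ i := by
    intro C φ i
    induction i with
    | zero => rw [pow_zero, pow_zero, hone]
    | succ i ih => rw [pow_succ, pow_succ, hmul, ih]
  constructor
  · intro h f Y hY _ _
    exact hBAK k n f _ Y hn hY.sqf.ne_zero hY.exp (h f Y hY)
  · intro h f Y hY psi hpsi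
    obtain ⟨C, rfl⟩ := hsq f hY.sqf
    obtain ⟨φ, hφC, rfl⟩ := hsurj C psi
    have hφ : Tame n φ := by
      refine ⟨C.finite_toSet.subset hφC, ?_, ?_⟩
      · apply hinj C (φ ^ n) 1 ((hspow φ n).trans hφC)
        · intro l hl
          exact absurd rfl hl
        · rw [hpow, hY.exp _ hpsi, hone]
      · exact (heven C φ hφC).1 (hY.even _ hpsi)
    refine hFLD k n (cn C) _ _ hn (hY.exp _ hpsi) fun g s hg π => ?_
    have h1 := hSEM S k n d P (V0 d Om L) hRich hn1 hnd (hLIM d P hW)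
      (hBRG S k n d Om P U L hn hW hU hHL h) g s hg π φ hφ
    have h2 := hLVL k n d P (V0 d Om L) hn g s hg π φ hφ h1 (C : Set Nat.Primes) C.finite_toSet
    rw [← hVCR n d Om P U L hW hU hHL C φ hφ hφC,
      ← hVCR n d Om P U L hW hU hHL C (φ ^ s) (htpow n s φ hφ) ((hspow φ s).trans hφC)] at h2
    unfold Vc at h2
    rw [hpow] at h2
    exact h2

end Pool.DPC
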