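import Pool.Agent.H29.DPT.Defs
import Pool.Agent.H52.DPC.SEM

/-!
# DPT: semilinear maps
-/

set_option autoImplicit false

namespace Pool.DPC

open Polynomial Complex in
theorem t_SEMT (hCOR : CORTStmt) (hGRF : GRFStmt) (hSUP : SUPStmt) : SEMTStmt := by
  intro S k n d P V hRich hn1 hnd hLim hTr g s hPow π φ hφ
  have hn : 0 < n := by omega
  obtain ⟨_, _, _, _, _, hmul, hpow, _, _⟩ := hSUP
  -- the inverse exponent
  set s1 : ℕ := s ^ (n.totient - 1) with hs1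
  have hss : s * s1 ≡ 1 [MOD n] := by
    have h1 : s * s1 = s ^ n.totient := by
      rw [hs1, ← pow_succ', Nat.sub_add_cancel (Nat.totient_pos.2 hn)]
    rw [h1]
    exact Nat.ModEq.pow_totient hPow.1
  have hinv : ∀ ψ : Ch, ψ ^ n = 1 → (ψ ^ s) ^ s1 = ψ := by
    intro ψ hψ
    rw [← pow_mul, pow_eq_pow_of_modEq hss hψ, pow_one]
  have hinv' : ∀ ψ : Ch, ψ ^ n = 1 → (ψ ^ s1) ^ s = ψ := by
    intro ψ hψ
    rw [← pow_mul, mul_comm, pow_eq_pow_of_modEq hss hψ, pow_one]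
  set Λ := H52.lam g π with hΛ
  set W : Ch → ℂ := fun ψ => Λ (V (ψ ^ s1)) - Λ 1 * V ψ with hW
  have hEq : EqYT S n W (Rf d P) := by
    intro α β hα hβ hq hit
    set H : Set Ch := (Subgroup.closure {α, β} : Set Ch) with hH
    set C : Set Nat.Primes := sup α ∪ sup β with hC
    have hCf : C.Finite := H52.tame_fin_union hα hβ
    have hHf : H.Finite := H52.fin_cl hn hα.exp hβ.exp
    have hHt : ∀ ψ ∈ H, Tame n ψ := by
      intro ψ hψ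
      obtain ⟨i, j, _, _, rfl⟩ := H52.mem_cl hn hα.exp hβ.exp hψ
      exact hmul n _ _ (hpow n i α hα) (hpow n j β hβ)
    have hT := hTr α β hα hβ hq hit
    rw [← hH, ← hC] at hT
    set T := ∑ᶠ ψ ∈ H, wl V (Rf d P) C ψ with hTdef
    have h1 : Λ T = Λ 1 * T := H52.lam_k g π hT
    have h2 : Λ T = ∑ᶠ ψ ∈ H, Λ (wl V (Rf d P) C ψ) := by
      rw [hTdef]
      exact AddMonoidHom.map_finsum_mem _ Λ hHf
    have h3 : ∑ᶠ ψ ∈ H, Λ (wl V (Rf d P) C ψ) = ∑ᶠ ψ ∈ H, (Λ (V (ψ ^ s1)) *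
        ∏ᶠ l ∈ C \ sup ψ, Rf d P l (ev ψ (l : ℕ))) := by
      refine finsum_mem_eq_of_bijOn (fun ψ => ψ ^ s) ⟨?_, ?_, ?_⟩ ?_
      · intro ψ hψ
        exact Subgroup.pow_mem _ hψ s
      · intro ψ hψ ψ' hψ' he
        have he' : ψ ^ s = ψ' ^ s := he
        rw [← hinv ψ (hHt ψ hψ).exp, ← hinv ψ' (hHt ψ' hψ').exp, he']
      · intro ψ hψ
        exact ⟨ψ ^ s1, Subgroup.pow_mem _ hψ s1, hinv' ψ (hHt ψ hψ).exp⟩
      · intro ψ hψ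
        obtain ⟨r, hr, hr'⟩ := hGRF k n d P C hn hCf g s hPow ψ (hHt ψ hψ)
        show Λ (V ψ * ∏ᶠ l ∈ C \ sup ψ, Rf d P l (ev ψ (l : ℕ))) = Λ (V ((ψ ^ s) ^ s1)) *
          ∏ᶠ l ∈ C \ sup (ψ ^ s), Rf d P l (ev (ψ ^ s) (l : ℕ))
        rw [hinv ψ (hHt ψ hψ).exp, ← hr, ← hr']
        exact H52.lam_mul g π _ r
    have h4 : ∑ᶠ ψ ∈ H, wl W (Rf d P) C ψ = ∑ᶠ ψ ∈ H, ((Λ (V (ψ ^ s1)) *
        ∏ᶠ l ∈ C \ sup ψ, Rf d P l (ev ψ (l : ℕ))) - Λ 1 * wl V (Rf d P) C ψ) := by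
      refine finsum_mem_congr rfl fun ψ _ => ?_
      simp only [wl, hW]
      ring
    rw [h4, finsum_mem_sub_distrib _ _ hHf, ← h3, ← h2, ← mul_finsum_mem, ← hTdef, h1,
      sub_self]
  have h5 := hCOR S n d W (Rf d P) hRich hn1 hnd hLim hEq (φ ^ s) (hpow n s φ hφ)
  simp only [hW] at h5
  rw [hinv φ hφ.exp, sub_eq_zero] at h5
  exact h5

end Pool.DPC
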