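import Pool.Agent.H29.DPT.Gdl
import Pool.Agent.H26.DPC.STB

/-!
# DPT: the step for the characters without two components of order `q`
-/

set_option autoImplicit false

namespace Pool.DPC.STB

open Polynomial Complex

theorem _root_.Pool.DPC.t_STBT (hMID : MIDTStmt) (hDIR : DIRTStmt) (hAUX : AUXStmt)
    (hORT : ORTTStmt) (hLM2 : LM2Stmt) (hEVP : EVPStmt) (hSUP : SUPStmt) : STBTStmt := by
  intro T n d W R hRich hn hcop hLim hE1 hE2 φ q hφ hq2 hd hd2 hφq hIH hTwo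
  have hS := hSUP
  obtain ⟨-, sdis, -, -, -, tmul, tpow, tord, -⟩ := hS
  have hqp : (q : ℕ).Prime := q.2
  have hord := tord n φ hn hφ
  have hqn : (q : ℕ) ∣ n := hd.trans hord.2
  have hm : 1 < orderOf φ := lt_of_lt_of_le hqp.one_lt (Nat.le_of_dvd hord.1 hd)
  have key : ∀ u : (l : Nat.Primes) → (ZMod (l : ℕ))ˣ, u q = 1 →
      ∑ i ∈ un (orderOf φ), W (φ ^ i) * ((pair φ u)⁻¹) ^ (d * i) = 0 := by
    intro u hu
    have hx := (hEVP.2.2.2.2 φ u (orderOf φ) hφ.fin hord.1 (pow_orderOf_eq_one φ)).2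
    refine hLM2 d (orderOf φ) R (fun i => W (φ ^ i)) (pair φ u) hLim hx fun B => ?_
    obtain ⟨p₁, a1, b1, c1, d1, e1⟩ := hDIR T hRich (sup φ) hφ.fin u q hu B
    obtain ⟨p₂, a2, b2, c2, d2, e2⟩ := hDIR T hRich (sup φ ∪ {p₁})
      (hφ.fin.union (Set.finite_singleton _)) 1 q rfl B
    have hp : p₁ ≠ p₂ := fun h => d2 (Or.inr h.symm)
    have hp1 : p₁ ∉ sup φ := d1
    have hp2 : p₂ ∉ sup φ := fun h => d2 (Or.inl h)
    have hqp1 : ∀ p : Nat.Primes, (p : ℕ) % (4 * (q : ℕ)) = 1 → q ≠ p := by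
      intro p hp h
      subst h
      rw [Nat.mod_eq_of_lt (by linarith [hqp.pos])] at hp
      exact hqp.one_lt.ne' hp
    obtain ⟨χ₁, t1, s1, o1⟩ := hAUX n q hqp hqn p₁ c1
    obtain ⟨χ₂, t2, s2, o2⟩ := hAUX n q hqp hqn p₂ c2
    have hdis : Disjoint (sup χ₁) (sup χ₂) := by
      rw [s1, s2]
      exact Set.disjoint_singleton.2 hp
    have hsχ : sup (χ₁ * χ₂) = {p₁, p₂} := by
      rw [sdis _ _ hdis, s1, s2]
      rfl
    have hdis2 : Disjoint (sup φ) (sup (χ₁ * χ₂)) := by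
      rw [hsχ, Set.disjoint_right]
      rintro l (rfl | rfl)
      · exact hp1
      · exact hp2
    have hχ1 : χ₁ ^ (q : ℕ) = 1 := by rw [← o1]; exact pow_orderOf_eq_one _
    have hχ2 : χ₂ ^ (q : ℕ) = 1 := by rw [← o2]; exact pow_orderOf_eq_one _
    have : Fact (q : ℕ).Prime := ⟨hqp⟩
    have hoχ : orderOf (χ₁ * χ₂) = q := by
      refine orderOf_eq_prime (by rw [mul_pow, hχ1, hχ2, one_mul]) fun h => ?_
      have : p₁ ∈ sup (χ₁ * χ₂) := by rw [hsχ]; exact Or.inl rfl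
      rw [h] at this
      exact this rfl
    have hmid := hMID T n W R hn hE1 hE2 φ (χ₁ * χ₂) q hφ (tmul _ _ _ t1 t2) hdis2
      ⟨p₁, by rw [hsχ]; exact Or.inl rfl, a1⟩ hqp hoχ hd hIH
    rw [Finset.sum_eq_zero (s := (Finset.range (orderOf φ)).filter (fun i => (q : ℕ) ∣ i)),
      add_zero] at hmid
    swap
    · intro i hi
      refine Finset.sum_eq_zero fun b hb => ?_
      exact term_zero hSUP hn hφ t1 t2 hd hφq hIH hTwo s1 s2 o1 o2 hp hp1 hp2 (hqp1 _ c1)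
        (hqp1 _ c2) (Finset.mem_filter.1 hi).2 (Finset.mem_Ico.1 hb).1 (Finset.mem_Ico.1 hb).2 _
    refine ⟨p₁, p₂, b1, b2, ?_⟩
    rw [← hmid]
    refine Finset.sum_congr rfl fun i _ => ?_
    rw [hsχ, finprod_pair hp, e1 φ subset_rfl, e2 φ Set.subset_union_left]
    have : pair φ 1 = 1 := by
      unfold pair
      rw [← finprod_one (α := Nat.Primes) (M := ℂ)]
      refine finprod_congr fun l => ?_
      simp
    rw [this, one_pow]
  have h1 := hORT d φ q (fun i => W (φ ^ i)) hφ.fin hord.1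
    (hcop.of_dvd hord.2) hφq key 1
    (Finset.mem_filter.2 ⟨Finset.mem_range.2 hm, Nat.coprime_one_left _⟩)
  simpa using h1

end Pool.DPC.STB
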