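import Pool.Agent.H29.DPC.All
import Pool.Agent.H29.DPT.BRG
import Pool.Agent.H29.DPT.BS
import Pool.Agent.H29.DPT.COR
import Pool.Agent.H29.DPT.DIR
import Pool.Agent.H29.DPT.IDX
import Pool.Agent.H29.DPT.MAIN
import Pool.Agent.H29.DPT.MID
import Pool.Agent.H29.DPT.ORT
import Pool.Agent.H29.DPT.SEM
import Pool.Agent.H29.DPT.STA
import Pool.Agent.H29.DPT.STB
import Pool.Agent.H29.DPT.STC

/-!
# DPT: all modules together
-/

set_option autoImplicit false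

namespace Pool.DPC

theorem dpt_cor : CORTStmt := by
  have hMID : MIDTStmt := t_MIDT t_SUP t_evp
  exact t_CORT (t_IDXT t_SUP) t_QSM
    (t_STAT t_SUP t_evp hMID t_DIRT t_aux (t_ORTT t_evp) t_lm1)
    (t_STBT hMID t_DIRT t_aux (t_ORTT t_evp) t_lm2 t_evp t_SUP)
    (t_STCT hMID t_DIRT t_aux (t_ORTT t_evp) t_lm1 t_evp t_SUP)
    (t_BS1 t_SUP t_evp t_DIRT t_aux) (t_BS2 t_SUP t_evp t_DIRT t_aux) t_SUP

theorem dpt_all : MainTStmt := by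
  have hVCR : VCRStmt := t_vcr (t_val t_td1 t_td3 t_GSM t_lfp)
  exact t_MAINT t_LIM t_td1 t_td2 t_td3 hVCR (t_BRGT t_td1 t_td2 t_td3 hVCR t_SUP)
    (t_SEMT dpt_cor (t_grf t_evp t_SUP) t_SUP) (t_LVL (t_grf t_evp t_SUP)) (t_FLD t_gal)
    (t_BAK29 t_gal) t_SUP

end Pool.DPC
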