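import Pool.Agent.H29.DPC.S2

/-!
# DPT: the trace criterion with a restricted set of test fields, definitions and statements
-/

set_option autoImplicit false

namespace Pool.DPC

open Polynomial Complex

/-- `S` has infinitely many primes in every reduced residue class. -/
def Rich (S : Set ℕ) : Prop :=
  ∀ M a : ℕ, 0 < M → a.Coprime M → ∀ B : ℕ, ∃ p ∈ S, B < p ∧ p.Prime ∧ p ≡ a [MOD M]

/-- The condition on `n` and `d`. -/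
def Gd (n d : ℕ) : Prop := n.gcd d = 1 ∨ (n.gcd d = 2 ∧ ¬ 4 ∣ n)

/-- some ramified prime is in `S` -/
def Hit (S : Set ℕ) (C : Set Nat.Primes) : Prop := ∃ l ∈ C, (l : ℕ) ∈ S

/-- the equations for the test groups -/
def EqYT (S : Set ℕ) (n : ℕ) (W : Ch → ℂ) (R : Nat.Primes → ℂ → ℂ) : Prop :=
  ∀ φ χ : Ch, Tame n φ → Tame n χ → (∃ q : ℕ, q.Prime ∧ χ ^ q = 1) → Hit S (sup φ ∪ sup χ) →
    ∑ᶠ ψ ∈ (Subgroup.closure {φ, χ} : Set Ch), wl W R (sup φ ∪ sup χ) ψ = 0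

/-- the equations for the cyclic test groups -/
def Eq1T (S : Set ℕ) (n : ℕ) (W : Ch → ℂ) (R : Nat.Primes → ℂ → ℂ) : Prop :=
  ∀ φ : Ch, Tame n φ → Hit S (sup φ) →
    ∑ i ∈ Finset.range (orderOf φ), wl W R (sup φ) (φ ^ i) = 0

/-- the equations for products of two cyclic groups with disjoint ramification -/
def Eq2T (S : Set ℕ) (n : ℕ) (W : Ch → ℂ) (R : Nat.Primes → ℂ → ℂ) : Prop :=
  ∀ φ χ : Ch, Tame n φ → Tame n χ → (∃ q : ℕ, q.Prime ∧ χ ^ q = 1) →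
    Disjoint (sup φ) (sup χ) → Hit S (sup φ ∪ sup χ) →
    ∑ i ∈ Finset.range (orderOf φ), ∑ b ∈ Finset.range (orderOf χ),
      wl W R (sup φ ∪ sup χ) (φ ^ i * χ ^ b) = 0

/-- IDXT -/
def IDXTStmt : Prop :=
  ∀ (S : Set ℕ) (n : ℕ) (W : Ch → ℂ) (R : Nat.Primes → ℂ → ℂ), 0 < n → EqYT S n W R →
    Eq1T S n W R ∧ Eq2T S n W R

/-- MIDT -/
def MIDTStmt : Prop :=
  ∀ (S : Set ℕ) (n : ℕ) (W : Ch → ℂ) (R : Nat.Primes → ℂ → ℂ), 0 < n → Eq1T S n W R →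
    Eq2T S n W R →
    ∀ (φ χ : Ch) (q : ℕ), Tame n φ → Tame n χ → Disjoint (sup φ) (sup χ) → Hit S (sup χ) →
    q.Prime → orderOf χ = q → q ∣ orderOf φ →
    (∀ ψ : Ch, Tame n ψ → orderOf ψ < orderOf φ → W ψ = 0) →
    ∑ i ∈ un (orderOf φ), W (φ ^ i) * ∏ᶠ l ∈ sup χ, R l (ev φ (l : ℕ) ^ i) +
      ∑ i ∈ (Finset.range (orderOf φ)).filter (fun i => q ∣ i), ∑ b ∈ Finset.Ico 1 q,
        wl W R (sup φ ∪ sup χ) (φ ^ i * χ ^ b) = 0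

/-- DIRT -/
def DIRTStmt : Prop :=
  ∀ (S : Set ℕ), Rich S → ∀ (C : Set Nat.Primes), C.Finite →
    ∀ (u : (l : Nat.Primes) → (ZMod (l : ℕ))ˣ)
    (q : Nat.Primes), u q = 1 → ∀ B : ℕ, ∃ p : Nat.Primes, (p : ℕ) ∈ S ∧ B < (p : ℕ) ∧
    (p : ℕ) % (4 * (q : ℕ)) = 1 ∧ p ∉ C ∧ ∀ φ : Ch, sup φ ⊆ C → ev φ (p : ℕ) = pair φ u

/-- ORTT -/
def ORTTStmt : Prop :=
  ∀ (d : ℕ) (φ : Ch) (q : Nat.Primes) (w : ℕ → ℂ), (sup φ).Finite → 0 < orderOf φ →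
    Gd (orderOf φ) d → φ q ^ 2 = 1 →
    (∀ u : (l : Nat.Primes) → (ZMod (l : ℕ))ˣ, u q = 1 →
      ∑ i ∈ un (orderOf φ), w i * ((pair φ u)⁻¹) ^ (d * i) = 0) →
    ∀ i ∈ un (orderOf φ), w i = 0

/-- STCT -/
def STCTStmt : Prop :=
  ∀ (S : Set ℕ) (n d : ℕ) (W : Ch → ℂ) (R : Nat.Primes → ℂ → ℂ), Rich S → 0 < n → Gd n d →
    Lim d R → Eq1T S n W R → Eq2T S n W R → ∀ (φ : Ch) (q : Nat.Primes), Tame n φ →
    (q : ℕ) ^ 2 ∣ orderOf φ → φ q ^ 2 = 1 → IH n W (orderOf φ) → W φ = 0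

/-- STAT -/
def STATStmt : Prop :=
  ∀ (S : Set ℕ) (n d : ℕ) (W : Ch → ℂ) (R : Nat.Primes → ℂ → ℂ), Rich S → 0 < n → Gd n d →
    Lim d R → Eq1T S n W R → Eq2T S n W R → ∀ (φ : Ch) (q : Nat.Primes), Tame n φ →
    (q : ℕ) ≠ 2 → (q : ℕ) ∣ orderOf φ → ¬ (q : ℕ) ^ 2 ∣ orderOf φ → φ q ^ 2 = 1 →
    IH n W (orderOf φ) → Two (q : ℕ) φ → W φ = 0

/-- STBT -/
def STBTStmt : Prop :=
  ∀ (S : Set ℕ) (n d : ℕ) (W : Ch → ℂ) (R : Nat.Primes → ℂ → ℂ), Rich S → 0 < n → Gd n d →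
    Lim d R → Eq1T S n W R → Eq2T S n W R → ∀ (φ : Ch) (q : Nat.Primes), Tame n φ →
    (q : ℕ) ≠ 2 → (q : ℕ) ∣ orderOf φ → ¬ (q : ℕ) ^ 2 ∣ orderOf φ → φ q ^ 2 = 1 →
    IH n W (orderOf φ) →
    (∀ ψ : Ch, Tame n ψ → orderOf ψ = orderOf φ → ψ q ^ 2 = 1 → Two (q : ℕ) ψ → W ψ = 0) →
    W φ = 0

/-- BS1: the trivial character. -/
def BS1Stmt : Prop :=
  ∀ (S : Set ℕ) (n d : ℕ) (W : Ch → ℂ) (R : Nat.Primes → ℂ → ℂ), Rich S → 1 < n → Lim d R →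
    Eq1T S n W R → Eq2T S n W R → W 1 = 0

/-- BS2: the quadratic characters. -/
def BS2Stmt : Prop :=
  ∀ (S : Set ℕ) (n d : ℕ) (W : Ch → ℂ) (R : Nat.Primes → ℂ → ℂ), Rich S → 1 < n → Lim d R →
    Eq1T S n W R → Eq2T S n W R → W 1 = 0 → ∀ φ : Ch, Tame n φ → orderOf φ = 2 → W φ = 0

/-- CORT -/
def CORTStmt : Prop :=
  ∀ (S : Set ℕ) (n d : ℕ) (W : Ch → ℂ) (R : Nat.Primes → ℂ → ℂ), Rich S → 1 < n → Gd n d →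
    Lim d R → EqYT S n W R → ∀ φ : Ch, Tame n φ → W φ = 0

/-- The traces over the test fields. -/
def TraceT (S : Set ℕ) (k : IntermediateField ℚ ℂ) (n d : ℕ) (Om : ℝ)
    (L : (f : ℕ) → DirichletCharacter ℂ f → ℂ → ℂ) : Prop :=
  ∀ (f : ℕ) (Y : Subgroup (DirichletCharacter ℂ f)), FieldData n f Y →
    (∃ a b, Y = Subgroup.closure {a, b} ∧ ∃ q : ℕ, q.Prime ∧ b ^ q = 1) →
    (∃ l ∈ S, l.Prime ∧ l ∣ f) →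
    ∑ᶠ psi ∈ (Y : Set (DirichletCharacter ℂ f)), normValue d Om (L f) psi ∈ k

/-- BRGT -/
def BRGTStmt : Prop :=
  ∀ (S : Set ℕ) (k : IntermediateField ℚ ℂ) (n d : ℕ) (Om : ℝ) (P : ℕ → ℚ[X]) (U : Set ℂ)
    (L : (f : ℕ) → DirichletCharacter ℂ f → ℂ → ℂ), 0 < n → Weil d P → Region U → HL n P U L →
    TraceT S k n d Om L → ∀ φ χ : Ch, Tame n φ → Tame n χ → (∃ q : ℕ, q.Prime ∧ χ ^ q = 1) →
    Hit S (sup φ ∪ sup χ) →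
    ∑ᶠ ψ ∈ (Subgroup.closure {φ, χ} : Set Ch),
      wl (V0 d Om L) (Rf d P) (sup φ ∪ sup χ) ψ ∈ k

/-- SEMT -/
def SEMTStmt : Prop :=
  ∀ (S : Set ℕ) (k : IntermediateField ℚ ℂ) (n d : ℕ) (P : ℕ → ℚ[X]) (V : Ch → ℂ), Rich S →
    1 < n → Gd n d → Lim d (Rf d P) →
    (∀ φ χ : Ch, Tame n φ → Tame n χ → (∃ q : ℕ, q.Prime ∧ χ ^ q = 1) →
      Hit S (sup φ ∪ sup χ) → ∑ᶠ ψ ∈ (Subgroup.closure {φ, χ} : Set Ch),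
      wl V (Rf d P) (sup φ ∪ sup χ) ψ ∈ k) →
    ∀ (g : cyc k n ≃ₐ[k] cyc k n) (s : ℕ), Pow g s → ∀ (π : ℂ →ₗ[cyc k n] cyc k n) (φ : Ch),
    Tame n φ → ((g (π (V φ)) : cyc k n) : ℂ) = ((g (π 1) : cyc k n) : ℂ) * V (φ ^ s)

/-- The theorem. -/
def MainTStmt : Prop :=
  ∀ (S : Set ℕ), Rich S → ∀ (n d : ℕ), 1 < n → Gd n d → ∀ (Om : ℝ) (P : ℕ → ℚ[X]) (U : Set ℂ)
    (L : (f : ℕ) → DirichletCharacter ℂ f → ℂ → ℂ), Weil d P → Region U → HL n P U L →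
    ∀ k : IntermediateField ℚ ℂ, AllEq k n d Om L ↔ TraceT S k n d Om L

end Pool.DPC
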