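import Pool.Agent.H29.DPT.Defs

/-!
# DPT: the condition on `n` and `d`
-/

set_option autoImplicit false

namespace Pool.DPC

/-- The condition for a divisor. -/
theorem Gd.of_dvd {m n d : ℕ} (h : Gd n d) (hm : m ∣ n) : Gd m d := by
  have h1 : m.gcd d ∣ n.gcd d := Nat.gcd_dvd_gcd_of_dvd_left d hm
  rcases h with h | ⟨h, h4⟩
  · rw [h] at h1
    exact Or.inl (Nat.dvd_one.1 h1)
  · rw [h] at h1
    rcases (Nat.dvd_prime Nat.prime_two).1 h1 with h2 | h2
    · exact Or.inl h2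
    · exact Or.inr ⟨h2, fun h5 => h4 (h5.trans hm)⟩

/-- An odd prime divisor of `n` does not divide `d`. -/
theorem Gd.not_dvd {n d q : ℕ} (h : Gd n d) (hq : q.Prime) (hq2 : q ≠ 2) (hn : q ∣ n) :
    ¬ q ∣ d := by
  intro hd
  have h1 : q ∣ n.gcd d := Nat.dvd_gcd hn hd
  rcases h with h | ⟨h, -⟩
  · rw [h] at h1
    exact hq.one_lt.ne' (Nat.dvd_one.1 h1)
  · rw [h] at h1
    exact hq2 ((Nat.prime_dvd_prime_iff_eq hq Nat.prime_two).1 h1)

end Pool.DPC
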